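import Mathlib

set_option autoImplicit false

namespace Pool.Agent.W852.GS

open Finset Filter Topology

/-- the energy of an angle configuration -/
noncomputable def En {n : ℕ} (A : Fin n → Fin n → ℝ) (φ : Fin n → ℝ) : ℝ :=
  (1 / 2 : ℝ) * ∑ i : Fin n, ∑ j : Fin n, A i j * (1 - Real.cos (φ i - φ j))

theorem tends_cos (b : ℝ) :
    Tendsto (fun t : ℝ => (1 - Real.cos (t * b)) / t ^ 2) (𝓝[≠] 0) (𝓝 (b ^ 2 / 2)) := by
  have h1 : HasDerivAt (fun t : ℝ => Real.sin (t * (b / 2))) (b / 2) 0 := by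
    have h := (hasDerivAt_id (0 : ℝ)).mul_const (b / 2)
    have h2 := h.sin
    simpa using h2
  have h2 := (hasDerivAt_iff_tendsto_slope_zero.1 h1)
  have h3 := (h2.pow 2).const_mul 2
  have e : 2 * (b / 2) ^ 2 = b ^ 2 / 2 := by ring
  rw [e] at h3
  refine h3.congr' ?_
  filter_upwards [self_mem_nhdsWithin] with t ht
  have ht' : t ≠ 0 := ht
  have h4 : Real.cos (t * b) = 1 - 2 * Real.sin (t * (b / 2)) ^ 2 := by
    have h5 := Real.cos_sq' (t * (b / 2))
    have h6 : Real.cos (t * b) = 2 * Real.cos (t * (b / 2)) ^ 2 - 1 := by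
      rw [← Real.cos_two_mul]
      congr 1
      ring
    rw [h6, h5]
    ring
  simp only [zero_add, zero_mul, Real.sin_zero, sub_zero, smul_eq_mul, h4]
  field_simp
  ring

theorem En_line {n : ℕ} (A : Fin n → Fin n → ℝ) (θ v : Fin n → ℝ) (t : ℝ) :
    En A (θ + t • v) + En A (θ + (-t) • v) - 2 * En A θ =
      ∑ i, ∑ j, A i j * Real.cos (θ i - θ j) * (1 - Real.cos (t * (v i - v j))) := by
  unfold En
  simp only [Finset.mul_sum]
  rw [← sum_add_distrib, ← sum_sub_distrib]
  refine sum_congr rfl fun i _ => ?_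
  rw [← sum_add_distrib, ← sum_sub_distrib]
  refine sum_congr rfl fun j _ => ?_
  have e1 : (θ + t • v) i - (θ + t • v) j = (θ i - θ j) + t * (v i - v j) := by
    simp only [Pi.add_apply, Pi.smul_apply, smul_eq_mul]; ring
  have e2 : (θ + (-t) • v) i - (θ + (-t) • v) j = (θ i - θ j) - t * (v i - v j) := by
    simp only [Pi.add_apply, Pi.smul_apply, smul_eq_mul]; ring
  rw [e1, e2]
  generalize θ i - θ j = a
  generalize t * (v i - v j) = b
  rw [Real.cos_add, Real.cos_sub]
  ring

theorem second {n : ℕ} (A : Fin n → Fin n → ℝ) (θ : Fin n → ℝ) (hmin : IsLocalMin (En A) θ)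
    (v : Fin n → ℝ) :
    0 ≤ ∑ i, ∑ j, A i j * Real.cos (θ i - θ j) * (v i - v j) ^ 2 := by
  have hc1 : Tendsto (fun t : ℝ => θ + t • v) (𝓝 0) (𝓝 θ) := by
    have : Continuous (fun t : ℝ => θ + t • v) := by fun_prop
    have h := this.tendsto 0
    simpa using h
  have hc2 : Tendsto (fun t : ℝ => θ + (-t) • v) (𝓝 0) (𝓝 θ) := by
    have : Continuous (fun t : ℝ => θ + (-t) • v) := by fun_prop
    have h := this.tendsto 0
    simpa using h
  have h1 : ∀ᶠ t : ℝ in 𝓝[≠] 0, 0 ≤ (∑ i, ∑ j, A i j * Real.cos (θ i - θ j) *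
      ((1 - Real.cos (t * (v i - v j))) / t ^ 2)) := by
    have h2 : ∀ᶠ t : ℝ in 𝓝 0, 0 ≤ (∑ i, ∑ j, A i j * Real.cos (θ i - θ j) *
        (1 - Real.cos (t * (v i - v j)))) := by
      filter_upwards [hc1.eventually hmin, hc2.eventually hmin] with t h3 h4
      rw [← En_line]
      linarith
    filter_upwards [nhdsWithin_le_nhds h2] with t ht
    have e : (∑ i, ∑ j, A i j * Real.cos (θ i - θ j) *
      ((1 - Real.cos (t * (v i - v j))) / t ^ 2)) =
      (∑ i, ∑ j, A i j * Real.cos (θ i - θ j) *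
        (1 - Real.cos (t * (v i - v j)))) / t ^ 2 := by
      rw [sum_div]
      refine sum_congr rfl fun i _ => ?_
      rw [sum_div]
      refine sum_congr rfl fun j _ => ?_
      ring
    rw [e]
    positivity
  have h5 : Tendsto (fun t : ℝ => ∑ i, ∑ j, A i j * Real.cos (θ i - θ j) *
      ((1 - Real.cos (t * (v i - v j))) / t ^ 2)) (𝓝[≠] 0)
      (𝓝 (∑ i, ∑ j, A i j * Real.cos (θ i - θ j) * ((v i - v j) ^ 2 / 2))) := by
    refine tendsto_finsetSum _ fun i _ => tendsto_finsetSum _ fun j _ => ?_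
    exact (tends_cos _).const_mul _
  have h6 := ge_of_tendsto h5 h1
  have e : (∑ i, ∑ j, A i j * Real.cos (θ i - θ j) * ((v i - v j) ^ 2 / 2)) =
      (∑ i, ∑ j, A i j * Real.cos (θ i - θ j) * (v i - v j) ^ 2) / 2 := by
    rw [sum_div]
    refine sum_congr rfl fun i _ => ?_
    rw [sum_div]
    refine sum_congr rfl fun j _ => ?_
    ring
  rw [e] at h6
  linarith

theorem first {n : ℕ} (A : Fin n → Fin n → ℝ) (θ : Fin n → ℝ) (hmin : IsLocalMin (En A) θ)
    (v : Fin n → ℝ) :
    ∑ i, ∑ j, A i j * Real.sin (θ i - θ j) * (v i - v j) = 0 := by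
  have hc1 : Tendsto (fun t : ℝ => θ + t • v) (𝓝 0) (𝓝 θ) := by
    have : Continuous (fun t : ℝ => θ + t • v) := by fun_prop
    have h := this.tendsto 0
    simpa using h
  have hloc : IsLocalMin (fun t : ℝ => En A (θ + t • v)) 0 := by
    have h := hc1.eventually hmin
    filter_upwards [h] with t ht
    simpa using ht
  have hder : HasDerivAt (fun t : ℝ => En A (θ + t • v))
      ((1 / 2 : ℝ) * ∑ i, ∑ j, A i j * (Real.sin (θ i - θ j) * (v i - v j))) 0 := by
    unfold En
    refine HasDerivAt.const_mul _ ?_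
    refine HasDerivAt.fun_sum fun i _ => ?_
    refine HasDerivAt.fun_sum fun j _ => ?_
    refine HasDerivAt.const_mul _ ?_
    have h1 : HasDerivAt (fun t : ℝ => (θ + t • v) i - (θ + t • v) j) (v i - v j) 0 := by
      have e : (fun t : ℝ => (θ + t • v) i - (θ + t • v) j) =
          fun t : ℝ => (θ i - θ j) + t * (v i - v j) := by
        funext t
        simp only [Pi.add_apply, Pi.smul_apply, smul_eq_mul]; ring
      rw [e]
      have h := ((hasDerivAt_id (0 : ℝ)).mul_const (v i - v j)).const_add (θ i - θ j)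
      simpa using h
    have h2 := (h1.cos).const_sub 1
    have e3 : - (-Real.sin ((θ + (0 : ℝ) • v) i - (θ + (0 : ℝ) • v) j) * (v i - v j)) =
        Real.sin (θ i - θ j) * (v i - v j) := by
      simp
    rw [e3] at h2
    exact h2
  have h := hloc.hasDerivAt_eq_zero hder
  have e : ∑ i, ∑ j, A i j * (Real.sin (θ i - θ j) * (v i - v j)) =
      ∑ i, ∑ j, A i j * Real.sin (θ i - θ j) * (v i - v j) := by
    refine sum_congr rfl fun i _ => sum_congr rfl fun j _ => ?_
    ring
  rw [e] at h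
  linarith

theorem first_coord {n : ℕ} (A : Fin n → Fin n → ℝ) (hs : ∀ i j, A i j = A j i)
    (θ : Fin n → ℝ) (hmin : IsLocalMin (En A) θ) (k : Fin n) :
    ∑ j, A k j * Real.sin (θ k - θ j) = 0 := by
  classical
  have h := first A θ hmin (Pi.single k 1)
  have e1 : ∑ i, ∑ j, A i j * Real.sin (θ i - θ j) *
      ((Pi.single k (1 : ℝ) : Fin n → ℝ) i - (Pi.single k (1 : ℝ) : Fin n → ℝ) j) =
      ∑ j, A k j * Real.sin (θ k - θ j) - ∑ i, A i k * Real.sin (θ i - θ k) := by
    have e2 : ∀ i j, A i j * Real.sin (θ i - θ j) *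
      ((Pi.single k (1 : ℝ) : Fin n → ℝ) i - (Pi.single k (1 : ℝ) : Fin n → ℝ) j) =
      (if i = k then A i j * Real.sin (θ i - θ j) else 0) -
      (if j = k then A i j * Real.sin (θ i - θ j) else 0) := by
      intro i j
      rw [Pi.single_apply, Pi.single_apply]
      split_ifs <;> ring
    simp only [e2, sum_sub_distrib]
    congr 1
    · rw [sum_comm]
      refine sum_congr rfl fun j _ => ?_
      simp
    · refine sum_congr rfl fun i _ => ?_
      simp
  rw [e1] at h
  have e3 : ∑ i, A i k * Real.sin (θ i - θ k) = - ∑ j, A k j * Real.sin (θ k - θ j) := by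
    rw [← sum_neg_distrib]
    refine sum_congr rfl fun i _ => ?_
    rw [hs i k, ← neg_sub (θ k) (θ i), Real.sin_neg]
    ring
  rw [e3] at h
  linarith

theorem second_coord {n : ℕ} (A : Fin n → Fin n → ℝ) (hs : ∀ i j, A i j = A j i)
    (h0 : ∀ i, A i i = 0)
    (θ : Fin n → ℝ) (hmin : IsLocalMin (En A) θ) (k : Fin n) :
    0 ≤ ∑ j, A k j * Real.cos (θ k - θ j) := by
  classical
  have h := second A θ hmin (Pi.single k 1)
  have e1 : ∑ i, ∑ j, A i j * Real.cos (θ i - θ j) *
      ((Pi.single k (1 : ℝ) : Fin n → ℝ) i - (Pi.single k (1 : ℝ) : Fin n → ℝ) j) ^ 2 =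
      ∑ j, A k j * Real.cos (θ k - θ j) + ∑ i, A i k * Real.cos (θ i - θ k) := by
    have e2 : ∀ i j, A i j * Real.cos (θ i - θ j) *
      ((Pi.single k (1 : ℝ) : Fin n → ℝ) i - (Pi.single k (1 : ℝ) : Fin n → ℝ) j) ^ 2 =
      (if i = k then A i j * Real.cos (θ i - θ j) else 0) +
      (if j = k then A i j * Real.cos (θ i - θ j) else 0) := by
      intro i j
      rw [Pi.single_apply, Pi.single_apply]
      split_ifs with h1 h2
      · subst h1; subst h2; simp [h0]
      · ring
      · ring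
      · ring
    simp only [e2, sum_add_distrib]
    congr 1
    · rw [sum_comm]
      refine sum_congr rfl fun j _ => ?_
      simp
    · refine sum_congr rfl fun i _ => ?_
      simp
  rw [e1] at h
  have e3 : ∑ i, A i k * Real.cos (θ i - θ k) = ∑ j, A k j * Real.cos (θ k - θ j) := by
    refine sum_congr rfl fun i _ => ?_
    rw [hs i k, ← neg_sub (θ k) (θ i), Real.cos_neg]
  rw [e3] at h
  linarith

end Pool.Agent.W852.GS
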