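import Mathlib

set_option autoImplicit false

namespace Pool.Agent.W852.GS

open MeasureTheory

/-- Hoeffding's lemma for a centred two point variable with values at distance two. -/
theorem hoef (p q x : ℝ) (hp : 0 ≤ p) (hq : 0 ≤ q) (hpq : p + q = 1) :
    p * Real.exp (x * (1 - (p - q))) + q * Real.exp (x * (-1 - (p - q))) ≤
      Real.exp (x ^ 2 / 2) := by
  set μ : Measure ℝ := ENNReal.ofReal p • Measure.dirac (1 : ℝ) +
    ENNReal.ofReal q • Measure.dirac (-1 : ℝ) with hμ
  have hprob : IsProbabilityMeasure μ := by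
    constructor
    rw [hμ]
    simp only [Measure.coe_add, Measure.coe_smul, Pi.add_apply, Pi.smul_apply,
      measure_univ, smul_eq_mul, mul_one]
    rw [← ENNReal.ofReal_add hp hq, hpq, ENNReal.ofReal_one]
  have hint : ∀ f : ℝ → ℝ, ∫ t, f t ∂μ = p * f 1 + q * f (-1) := by
    intro f
    rw [hμ, integral_add_measure]
    · rw [integral_smul_measure, integral_smul_measure, integral_dirac, integral_dirac,
        ENNReal.toReal_ofReal hp, ENNReal.toReal_ofReal hq]
      simp
    · exact (integrable_dirac (by simp)).smul_measure ENNReal.ofReal_ne_top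
    · exact (integrable_dirac (by simp)).smul_measure ENNReal.ofReal_ne_top
  have hae : ∀ᵐ t ∂μ, (fun t : ℝ => t) t ∈ Set.Icc (-1 : ℝ) 1 := by
    rw [hμ, ae_add_measure_iff]
    constructor
    · apply Measure.ae_smul_measure
      refine (ae_dirac_iff (p := fun t : ℝ => t ∈ Set.Icc (-1 : ℝ) 1) measurableSet_Icc).2 ?_
      constructor <;> norm_num
    · apply Measure.ae_smul_measure
      refine (ae_dirac_iff (p := fun t : ℝ => t ∈ Set.Icc (-1 : ℝ) 1) measurableSet_Icc).2 ?_
      constructor <;> norm_num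
  have h3 := ProbabilityTheory.hasSubgaussianMGF_of_mem_Icc (μ := μ) (X := fun t : ℝ => t)
    measurable_id.aemeasurable hae
  have h4 := h3.mgf_le x
  rw [ProbabilityTheory.mgf, hint (fun t => t)] at h4
  rw [hint] at h4
  have h5 : ((‖(1 : ℝ) - (-1)‖₊ / 2) ^ 2 : NNReal) = 1 := by
    have : ‖(1 : ℝ) - (-1)‖₊ = 2 := by
      rw [← NNReal.coe_inj]
      simp
      norm_num
    rw [this]
    norm_num
  rw [h5] at h4
  refine le_trans (le_of_eq ?_) (h4.trans (le_of_eq ?_))
  · have e1 : p * 1 + q * -1 = p - q := by ring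
    rw [e1]
  · simp

end Pool.Agent.W852.GS
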