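import Pool.Agent.W852.GS.Det

set_option autoImplicit false

namespace Pool.Agent.W852.GS

open Finset Filter Topology

/-- the pointwise estimate -/
theorem key {a C : ℝ} {m y : ℂ} (ha : 0 < a) (hC : 0 ≤ C) (hy : ‖y‖ = 1)
    (h : (a : ℂ) + m = C * y) : a * ‖y - 1‖ ≤ 2 * ‖m‖ := by
  have h1 : C = ‖(a : ℂ) + m‖ := by
    rw [h, norm_mul, hy, mul_one, Complex.norm_real, Real.norm_of_nonneg hC]
  have h2 : |C - a| ≤ ‖m‖ := by
    have h3 := abs_norm_sub_norm_le ((a : ℂ) + m) (a : ℂ)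
    rw [← h1, Complex.norm_real, Real.norm_of_nonneg ha.le, add_sub_cancel_left] at h3
    exact h3
  have h4 : (a : ℂ) * (y - 1) = m - ((C - a : ℝ) : ℂ) * y := by
    push_cast
    linear_combination (-1 : ℂ) * h
  have h5 : ‖(a : ℂ) * (y - 1)‖ = a * ‖y - 1‖ := by
    rw [norm_mul, Complex.norm_real, Real.norm_of_nonneg ha.le]
  rw [← h5, h4]
  calc ‖m - ((C - a : ℝ) : ℂ) * y‖ ≤ ‖m‖ + ‖((C - a : ℝ) : ℂ) * y‖ := norm_sub_le _ _
    _ = ‖m‖ + |C - a| := by rw [norm_mul, hy, mul_one, Complex.norm_real, Real.norm_eq_abs]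
    _ ≤ 2 * ‖m‖ := by linarith

theorem quad {n : ℕ} {M : Fin n → Fin n → ℝ} {ν : ℝ} (hν : 0 ≤ ν)
    (hM : ∀ w : Fin n → ℝ, ∑ i, (∑ j, M i j * w j) ^ 2 ≤ ν ^ 2 * ∑ j, w j ^ 2)
    (w : Fin n → ℝ) : |∑ i, ∑ j, M i j * (w i * w j)| ≤ ν * ∑ j, w j ^ 2 := by
  have h1 : ∑ i, ∑ j, M i j * (w i * w j) = ∑ i, w i * ∑ j, M i j * w j := by
    refine sum_congr rfl fun i _ => ?_
    rw [mul_sum]
    refine sum_congr rfl fun j _ => ?_
    ring
  have h2 := sum_mul_sq_le_sq_mul_sq univ w (fun i => ∑ j, M i j * w j)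
  rw [← h1] at h2
  have h3 : 0 ≤ ∑ j, w j ^ 2 := sum_nonneg fun i _ => sq_nonneg _
  refine abs_le_of_sq_le_sq ?_ (by positivity)
  calc _ ≤ _ := h2
    _ ≤ (∑ j, w j ^ 2) * (ν ^ 2 * ∑ j, w j ^ 2) := mul_le_mul_of_nonneg_left (hM w) h3
    _ = _ := by ring

theorem cplx {n : ℕ} {M : Fin n → Fin n → ℝ} {ν : ℝ}
    (hM : ∀ w : Fin n → ℝ, ∑ i, (∑ j, M i j * w j) ^ 2 ≤ ν ^ 2 * ∑ j, w j ^ 2)
    (w : Fin n → ℂ) : ∑ i, ‖∑ j, (M i j : ℂ) * w j‖ ^ 2 ≤ ν ^ 2 * ∑ j, ‖w j‖ ^ 2 := by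
  have h1 : ∀ i, ‖∑ j, (M i j : ℂ) * w j‖ ^ 2 =
      (∑ j, M i j * (w j).re) ^ 2 + (∑ j, M i j * (w j).im) ^ 2 := by
    intro i
    rw [Complex.sq_norm, Complex.normSq_apply]
    have e1 : (∑ j, (M i j : ℂ) * w j).re = ∑ j, M i j * (w j).re := by
      rw [Complex.re_sum]
      refine sum_congr rfl fun j _ => ?_
      simp
    have e2 : (∑ j, (M i j : ℂ) * w j).im = ∑ j, M i j * (w j).im := by
      rw [Complex.im_sum]
      refine sum_congr rfl fun j _ => ?_
      simp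
    rw [e1, e2]
    ring
  have h2 : ∀ j, ‖w j‖ ^ 2 = (w j).re ^ 2 + (w j).im ^ 2 := by
    intro j
    rw [Complex.sq_norm, Complex.normSq_apply]
    ring
  simp only [h1, h2, sum_add_distrib, mul_add]
  exact add_le_add (hM _) (hM _)

/-- **Deterministic theorem.** If `A = 2δ + M` with `M` small in operator norm and all row sums of
`A` are large, every local minimum of the energy is constant modulo `2π`. -/
theorem sync {n : ℕ} (hn : 0 < n) (A : Fin n → Fin n → ℝ) (hs : ∀ i j, A i j = A j i)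
    (h0 : ∀ i, A i i = 0) {δ κ c : ℝ} (hδ : 0 < δ) (hκ0 : 0 ≤ κ) (hκ1 : κ ≤ 1 / 4)
    (hκ2 : 4 * κ ^ 2 ≤ c) (hκ3 : 2 * κ < c)
    (hM : ∀ w : Fin n → ℝ, ∑ i, (∑ j, (A i j - 2 * δ) * w j) ^ 2 ≤
      (κ * δ * n) ^ 2 * ∑ j, w j ^ 2)
    (hR : ∀ i, 2 * c * δ * n ≤ ∑ j, A i j)
    (θ : Fin n → ℝ) (hmin : IsLocalMin (En A) θ) :
    ∀ i j : Fin n, ∃ k : ℤ, θ i - θ j = 2 * Real.pi * (k : ℝ) := by
  have hn' : (0 : ℝ) < n := by exact_mod_cast hn
  set ν : ℝ := κ * δ * n with hν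
  have hν0 : 0 ≤ ν := by positivity
  set M : Fin n → Fin n → ℝ := fun i j => A i j - 2 * δ with hMdef
  have hM' : ∀ w : Fin n → ℝ, ∑ i, (∑ j, M i j * w j) ^ 2 ≤ ν ^ 2 * ∑ j, w j ^ 2 := hM
  -- quadratic forms of `A`
  have hQ : ∀ w : Fin n → ℝ, ∑ i, ∑ j, A i j * (w i * w j) =
      2 * δ * (∑ j, w j) ^ 2 + ∑ i, ∑ j, M i j * (w i * w j) := by
    intro w
    have e : (∑ j, w j) ^ 2 = ∑ i, ∑ j, w i * w j := by
      rw [sq, sum_mul_sum]
    rw [e, mul_sum, ← sum_add_distrib]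
    refine sum_congr rfl fun i _ => ?_
    rw [mul_sum, ← sum_add_distrib]
    refine sum_congr rfl fun j _ => ?_
    simp only [hMdef]
    ring
  -- step 1
  set S1 : ℝ := ∑ j, Real.cos (θ j) with hS1
  set S2 : ℝ := ∑ j, Real.sin (θ j) with hS2
  have hstep1 : (n : ℝ) ^ 2 / 4 ≤ S1 ^ 2 + S2 ^ 2 := by
    have ha := second A θ hmin (fun j => Real.cos (θ j))
    have hb := second A θ hmin (fun j => Real.sin (θ j))
    have hab := add_nonneg ha hb
    have e1 : (∑ i, ∑ j, A i j * Real.cos (θ i - θ j) * (Real.cos (θ i) - Real.cos (θ j)) ^ 2) +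
        (∑ i, ∑ j, A i j * Real.cos (θ i - θ j) * (Real.sin (θ i) - Real.sin (θ j)) ^ 2) =
        2 * ((∑ i, ∑ j, A i j * (Real.cos (θ i) * Real.cos (θ j))) +
          (∑ i, ∑ j, A i j * (Real.sin (θ i) * Real.sin (θ j)))) -
        ((∑ i, ∑ j, A i j * (1 * 1)) +
         (∑ i, ∑ j, A i j * (Real.cos (2 * θ i) * Real.cos (2 * θ j))) +
          (∑ i, ∑ j, A i j * (Real.sin (2 * θ i) * Real.sin (2 * θ j)))) := by
      simp only [mul_sum, ← sum_add_distrib, ← sum_sub_distrib]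
      refine sum_congr rfl fun i _ => ?_
      refine sum_congr rfl fun j _ => ?_
      rw [Real.cos_sub, Real.cos_two_mul, Real.cos_two_mul, Real.sin_two_mul, Real.sin_two_mul]
      have h1 := Real.sin_sq_add_cos_sq (θ i)
      have h2 := Real.sin_sq_add_cos_sq (θ j)
      generalize Real.cos (θ i) = a at *
      generalize Real.cos (θ j) = b at *
      generalize Real.sin (θ i) = s at *
      generalize Real.sin (θ j) = t at *
      have h3 : s ^ 2 = 1 - a ^ 2 := by linarith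
      have h4 : t ^ 2 = 1 - b ^ 2 := by linarith
      have h5 : (a - b) ^ 2 + (s - t) ^ 2 = 2 - 2 * (a * b + s * t) := by
        have : (a - b) ^ 2 + (s - t) ^ 2 = (a ^ 2 + s ^ 2) + (b ^ 2 + t ^ 2) -
          2 * (a * b + s * t) := by ring
        rw [this, h3, h4]; ring
      have h6 : 1 * 1 + (2 * a ^ 2 - 1) * (2 * b ^ 2 - 1) + (2 * s * a) * (2 * t * b) =
          2 * (a * b + s * t) ^ 2 := by
        have : 2 * (a * b + s * t) ^ 2 = 2 * (a ^ 2 * b ^ 2) + 4 * (a * b * s * t) +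
          2 * (s ^ 2 * t ^ 2) := by ring
        rw [this, h3, h4]; ring
      have h7 : A i j * (a * b + s * t) * (a - b) ^ 2 + A i j * (a * b + s * t) * (s - t) ^ 2 =
          A i j * (a * b + s * t) * (2 - 2 * (a * b + s * t)) := by
        rw [← mul_add, h5]
      rw [h7]
      have h8 : A i j * (1 * 1) + A i j * ((2 * a ^ 2 - 1) * (2 * b ^ 2 - 1)) +
          A i j * (2 * s * a * (2 * t * b)) = A i j * (2 * (a * b + s * t) ^ 2) := by
        rw [← h6]; ring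
      rw [h8]
      ring
    rw [e1, hQ (fun j => Real.cos (θ j)), hQ (fun j => Real.sin (θ j)), hQ (fun _ => 1),
      hQ (fun j => Real.cos (2 * θ j)), hQ (fun j => Real.sin (2 * θ j))] at hab
    have q1 := (abs_le.1 (quad hν0 hM' (fun j => Real.cos (θ j)))).2
    have q2 := (abs_le.1 (quad hν0 hM' (fun j => Real.sin (θ j)))).2
    have q3 := (abs_le.1 (quad hν0 hM' (fun _ => 1))).1
    have q4 := (abs_le.1 (quad hν0 hM' (fun j => Real.cos (2 * θ j)))).1
    have q5 := (abs_le.1 (quad hν0 hM' (fun j => Real.sin (2 * θ j)))).1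
    have t1 : (∑ j, Real.cos (θ j) ^ 2) + ∑ j, Real.sin (θ j) ^ 2 = n := by
      rw [← sum_add_distrib]
      simp
    have t2 : (∑ j, Real.cos (2 * θ j) ^ 2) + ∑ j, Real.sin (2 * θ j) ^ 2 = n := by
      rw [← sum_add_distrib]
      simp
    have t3 : ∑ _j : Fin n, (1 : ℝ) = n := by simp
    have t4 : ∑ _j : Fin n, (1 : ℝ) ^ 2 = n := by simp
    rw [t3] at hab
    rw [t4] at q3
    have g1 : ν * (∑ j, Real.cos (θ j) ^ 2) + ν * ∑ j, Real.sin (θ j) ^ 2 = ν * n := by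
      rw [← mul_add, t1]
    have g2 : ν * (∑ j, Real.cos (2 * θ j) ^ 2) + ν * ∑ j, Real.sin (2 * θ j) ^ 2 = ν * n := by
      rw [← mul_add, t2]
    have g3 : 0 ≤ 2 * δ * (∑ j, Real.cos (2 * θ j)) ^ 2 := by positivity
    have g4 : 0 ≤ 2 * δ * (∑ j, Real.sin (2 * θ j)) ^ 2 := by positivity
    have g5 : 2 * δ * (n : ℝ) ^ 2 ≤ 4 * δ * (S1 ^ 2 + S2 ^ 2) + 4 * (ν * n) := by
      nlinarith
    have g6 : ν * n ≤ δ * (n : ℝ) ^ 2 / 4 := by
      rw [hν]
      have : κ * δ * n * n ≤ 1 / 4 * δ * n * n := by gcongr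
      nlinarith
    have g7 : δ * (n : ℝ) ^ 2 ≤ 4 * δ * (S1 ^ 2 + S2 ^ 2) := by linarith
    have g8 : (n : ℝ) ^ 2 ≤ 4 * (S1 ^ 2 + S2 ^ 2) := by
      have : δ * (n : ℝ) ^ 2 ≤ δ * (4 * (S1 ^ 2 + S2 ^ 2)) := by linarith
      exact le_of_mul_le_mul_left this hδ
    linarith
  -- the rotated unit vectors
  set Z : ℂ := ∑ j, Complex.exp (θ j * Complex.I) with hZ
  set r : ℝ := ‖Z‖ with hr
  have hZre : Z.re = S1 := by
    rw [hZ, Complex.re_sum, hS1]
    refine sum_congr rfl fun j _ => ?_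
    exact Complex.exp_ofReal_mul_I_re _
  have hZim : Z.im = S2 := by
    rw [hZ, Complex.im_sum, hS2]
    refine sum_congr rfl fun j _ => ?_
    exact Complex.exp_ofReal_mul_I_im _
  have hr2 : r ^ 2 = S1 ^ 2 + S2 ^ 2 := by
    rw [hr, Complex.sq_norm, Complex.normSq_apply, hZre, hZim]
    ring
  have hr0 : 0 ≤ r := norm_nonneg _
  have hrn : (n : ℝ) / 2 ≤ r := by
    nlinarith
  have hrpos : 0 < r := by linarith [half_pos hn']
  set φ : ℝ := Complex.arg Z with hφ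
  have hZpol : Z = r * Complex.exp (φ * Complex.I) := (Complex.norm_mul_exp_arg_mul_I Z).symm
  set y : Fin n → ℂ := fun j => Complex.exp (((θ j - φ : ℝ) : ℂ) * Complex.I) with hy
  have hy1 : ∀ j, ‖y j‖ = 1 := fun j => Complex.norm_exp_ofReal_mul_I _
  have hysum : ∑ j, y j = (r : ℂ) := by
    have e1 : ∀ j, y j = Complex.exp (θ j * Complex.I) * Complex.exp (-(φ * Complex.I)) := by
      intro j
      rw [← Complex.exp_add]
      simp only [hy]
      congr 1
      push_cast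
      ring
    simp only [e1]
    rw [← sum_mul, ← hZ, hZpol, mul_assoc, ← Complex.exp_add]
    simp
  -- stationarity
  have hstat : ∀ i, ∑ j, (A i j : ℂ) * y j =
      ((∑ j, A i j * Real.cos (θ i - θ j) : ℝ) : ℂ) * y i := by
    intro i
    have hf := first_coord A hs θ hmin i
    have e1 : ∀ j, (A i j : ℂ) * y j = ((A i j * Real.cos (θ i - θ j) : ℝ) : ℂ) * y i -
        ((A i j * Real.sin (θ i - θ j) : ℝ) : ℂ) * (Complex.I * y i) := by
      intro j
      have e2 : y j = (((Real.cos (θ i - θ j) : ℝ) : ℂ) -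
          ((Real.sin (θ i - θ j) : ℝ) : ℂ) * Complex.I) * y i := by
        have e3 : (((Real.cos (θ i - θ j) : ℝ) : ℂ) -
          ((Real.sin (θ i - θ j) : ℝ) : ℂ) * Complex.I) =
            Complex.exp (((-(θ i - θ j) : ℝ) : ℂ) * Complex.I) := by
          rw [Complex.exp_mul_I, ← Complex.ofReal_cos, ← Complex.ofReal_sin, Real.cos_neg,
            Real.sin_neg]
          push_cast
          ring
        rw [e3, ← Complex.exp_add]
        simp only [hy]
        congr 1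
        push_cast
        ring
      rw [e2]
      push_cast
      ring
    rw [sum_congr rfl fun j _ => e1 j, sum_sub_distrib, ← sum_mul, ← sum_mul]
    have e4 : ∑ j, ((A i j * Real.sin (θ i - θ j) : ℝ) : ℂ) = 0 := by
      rw [← Complex.ofReal_sum, hf, Complex.ofReal_zero]
    rw [e4, zero_mul, sub_zero, Complex.ofReal_sum]
  have hCn := fun i => second_coord A hs h0 θ hmin i
  -- decomposition
  have hdec : ∀ i, ∑ j, (A i j : ℂ) * y j = ((2 * δ * r : ℝ) : ℂ) + ∑ j, (M i j : ℂ) * y j := by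
    intro i
    have e1 : ∀ j, (A i j : ℂ) * y j = 2 * δ * y j + (M i j : ℂ) * y j := by
      intro j
      simp only [hMdef]
      push_cast
      ring
    rw [sum_congr rfl fun j _ => e1 j, sum_add_distrib, ← mul_sum, hysum]
    push_cast
    ring
  set U : ℝ := ∑ j, ‖y j - 1‖ ^ 2 with hU
  have hU0 : 0 ≤ U := sum_nonneg fun i _ => sq_nonneg _
  -- step 2
  have hstep2 : U ≤ 4 * κ ^ 2 * n := by
    have h1 : ∀ i, (2 * δ * r) * ‖y i - 1‖ ≤ 2 * ‖∑ j, (M i j : ℂ) * y j‖ := by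
      intro i
      refine key (by positivity) (hCn i) (hy1 i) ?_
      rw [← hdec, hstat]
    have h2 : (2 * δ * r) ^ 2 * U ≤ 4 * (ν ^ 2 * n) := by
      have h3 := cplx hM' y
      have h4 : ∑ j, ‖y j‖ ^ 2 = n := by
        simp [hy1]
      rw [h4] at h3
      calc (2 * δ * r) ^ 2 * U = ∑ i, ((2 * δ * r) * ‖y i - 1‖) ^ 2 := by
            rw [hU, mul_sum]
            refine sum_congr rfl fun i _ => ?_
            ring
        _ ≤ ∑ i, (2 * ‖∑ j, (M i j : ℂ) * y j‖) ^ 2 := by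
            refine sum_le_sum fun i _ => ?_
            exact pow_le_pow_left₀ (by positivity) (h1 i) 2
        _ = 4 * ∑ i, ‖∑ j, (M i j : ℂ) * y j‖ ^ 2 := by
            rw [mul_sum]
            refine sum_congr rfl fun i _ => ?_
            ring
        _ ≤ _ := mul_le_mul_of_nonneg_left h3 (by norm_num)
    have h5 : (δ * n) ^ 2 ≤ (2 * δ * r) ^ 2 := by
      apply pow_le_pow_left₀ (by positivity)
      nlinarith
    have h6 : (δ * n) ^ 2 * U ≤ (δ * n) ^ 2 * (4 * κ ^ 2 * n) := by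
      calc (δ * n) ^ 2 * U ≤ (2 * δ * r) ^ 2 * U := mul_le_mul_of_nonneg_right h5 hU0
        _ ≤ _ := h2
        _ = _ := by rw [hν]; ring
    exact le_of_mul_le_mul_left h6 (by positivity)
  -- step 3
  have hdef : (n : ℝ) - r = U / 2 := by
    have h1 : ∀ j, ‖y j - 1‖ ^ 2 = 2 - 2 * (y j).re := by
      intro j
      have h2 := hy1 j
      have h3 : (y j).re ^ 2 + (y j).im ^ 2 = 1 := by
        have h4 : ‖y j‖ ^ 2 = 1 := by rw [h2]; norm_num
        rw [Complex.sq_norm, Complex.normSq_apply] at h4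
        nlinarith
      rw [Complex.sq_norm, Complex.normSq_apply]
      simp only [Complex.sub_re, Complex.sub_im, Complex.one_re, Complex.one_im]
      nlinarith
    have h5 : ∑ j, (y j).re = r := by
      rw [← Complex.re_sum, hysum, Complex.ofReal_re]
    rw [hU, sum_congr rfl fun j _ => h1 j, sum_sub_distrib, ← mul_sum, h5]
    simp
    ring
  have hstep3 : ∀ i, (c * δ * n) * ‖y i - 1‖ ≤ 2 * ‖∑ j, (M i j : ℂ) * (y j - 1)‖ := by
    intro i
    set a : ℝ := (∑ j, A i j) - δ * U with ha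
    have ha1 : c * δ * n ≤ a := by
      have h1 := hR i
      have h2 : δ * U ≤ c * δ * n := by
        have h3 : δ * U ≤ δ * (4 * κ ^ 2 * n) := mul_le_mul_of_nonneg_left hstep2 hδ.le
        have h4 : δ * (4 * κ ^ 2 * n) ≤ δ * (c * n) := by gcongr
        linarith
      linarith
    have hc0 : 0 < c := lt_of_le_of_lt (by positivity) hκ3
    have ha0 : 0 < a := lt_of_lt_of_le (by positivity) ha1
    have hk : a * ‖y i - 1‖ ≤ 2 * ‖∑ j, (M i j : ℂ) * (y j - 1)‖ := by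
      refine key ha0 (hCn i) (hy1 i) ?_
      rw [← hstat, hdec]
      have e1 : ∑ j, (M i j : ℂ) * (y j - 1) = ∑ j, (M i j : ℂ) * y j - ((∑ j, M i j : ℝ) : ℂ) := by
        rw [Complex.ofReal_sum, ← sum_sub_distrib]
        refine sum_congr rfl fun j _ => ?_
        ring
      have e2 : ∑ j, M i j = (∑ j, A i j) - 2 * δ * n := by
        simp only [hMdef, sum_sub_distrib]
        simp
        ring
      have e3 : a = 2 * δ * r + ∑ j, M i j := by
        rw [ha, e2]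
        have : U = 2 * (n - r) := by linarith
        rw [this]
        ring
      rw [e1, e3]
      push_cast
      ring
    exact (mul_le_mul_of_nonneg_right ha1 (norm_nonneg _)).trans hk
  have hUzero : U = 0 := by
    have h3 := cplx hM' (fun j => y j - 1)
    have h1 : (c * δ * n) ^ 2 * U ≤ 4 * (ν ^ 2 * U) := by
      calc (c * δ * n) ^ 2 * U = ∑ i, ((c * δ * n) * ‖y i - 1‖) ^ 2 := by
            rw [hU, mul_sum]
            refine sum_congr rfl fun i _ => ?_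
            ring
        _ ≤ ∑ i, (2 * ‖∑ j, (M i j : ℂ) * (y j - 1)‖) ^ 2 := by
            refine sum_le_sum fun i _ => ?_
            have hc0 : 0 < c := lt_of_le_of_lt (by positivity) hκ3
            exact pow_le_pow_left₀ (by positivity) (hstep3 i) 2
        _ = 4 * ∑ i, ‖∑ j, (M i j : ℂ) * (y j - 1)‖ ^ 2 := by
            rw [mul_sum]
            refine sum_congr rfl fun i _ => ?_
            ring
        _ ≤ _ := mul_le_mul_of_nonneg_left h3 (by norm_num)
    have h2 : 0 < (δ * n) ^ 2 * (c ^ 2 - 4 * κ ^ 2) := by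
      have : 0 < c ^ 2 - 4 * κ ^ 2 := by nlinarith
      positivity
    have h4 : (δ * n) ^ 2 * (c ^ 2 - 4 * κ ^ 2) * U ≤ 0 := by
      have e : (δ * n) ^ 2 * (c ^ 2 - 4 * κ ^ 2) * U = (c * δ * n) ^ 2 * U - 4 * (ν ^ 2 * U) := by
        rw [hν]; ring
      rw [e]
      linarith
    by_contra hne
    have : 0 < U := lt_of_le_of_ne hU0 (Ne.symm hne)
    have := mul_pos h2 this
    linarith
  have hone : ∀ j, y j = 1 := by
    intro j
    have h1 := (sum_eq_zero_iff_of_nonneg (fun i _ => sq_nonneg (‖y i - 1‖))).1 hUzero j (mem_univ j)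
    have h2 : ‖y j - 1‖ = 0 := by
      exact pow_eq_zero_iff (two_ne_zero) |>.1 h1
    exact sub_eq_zero.1 (norm_eq_zero.1 h2)
  have hint : ∀ j, ∃ k : ℤ, θ j - φ = 2 * Real.pi * (k : ℝ) := by
    intro j
    obtain ⟨k, hk⟩ := Complex.exp_eq_one_iff.1 (hone j)
    refine ⟨k, ?_⟩
    have h1 : ((θ j - φ : ℝ) : ℂ) = ((2 * Real.pi * k : ℝ) : ℂ) := by
      have h2 : ((θ j - φ : ℝ) : ℂ) * Complex.I = ((2 * Real.pi * k : ℝ) : ℂ) * Complex.I := by
        rw [hk]
        push_cast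
        ring
      exact mul_right_cancel₀ Complex.I_ne_zero h2
    exact_mod_cast h1
  intro i j
  obtain ⟨k, hk⟩ := hint i
  obtain ⟨l, hl⟩ := hint j
  refine ⟨k - l, ?_⟩
  push_cast
  linarith

end Pool.Agent.W852.GS
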