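import Pool.Agent.W852.GS.Prob
import Pool.Agent.W852.GS.Sync
import Pool.Agent.Helper190.SS.P_net_exists

set_option autoImplicit false

namespace Pool.Agent.W852.GS

open Finset Filter Topology Matrix
open scoped Matrix.Norms.L2Operator
open Pool.Agent.Helper190.SS (en en_sq en_nonneg net_exists)

theorem row_var {n : ℕ} (k : Fin n) :
    (∑ i : Fin n, ∑ j : Fin n, if i < j then
      ((if i = k then (-1 : ℝ) else 0) + (if j = k then (-1 : ℝ) else 0)) ^ 2 else 0) ≤ n := by
  have h1 : ∀ i j : Fin n, (if i < j then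
      ((if i = k then (-1 : ℝ) else 0) + (if j = k then (-1 : ℝ) else 0)) ^ 2 else 0) ≤
      (if i = k then (if k < j then (1 : ℝ) else 0) else 0) +
      (if j = k then (if i < k then (1 : ℝ) else 0) else 0) := by
    intro i j
    by_cases hi : i = k
    · subst hi
      by_cases hj : j = i
      · subst hj; simp
      · by_cases hij : i < j <;> simp [hj, hij]
    · by_cases hj : j = k
      · subst hj
        by_cases hij : i < j <;> simp [hi, hij]
      · simp [hi, hj]
  calc _ ≤ ∑ i : Fin n, ∑ j : Fin n, ((if i = k then (if k < j then (1 : ℝ) else 0) else 0) +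
      (if j = k then (if i < k then (1 : ℝ) else 0) else 0)) :=
        sum_le_sum fun i _ => sum_le_sum fun j _ => h1 i j
    _ = ∑ j : Fin n, ((if k < j then (1 : ℝ) else 0) + (if j < k then (1 : ℝ) else 0)) := by
        simp only [sum_add_distrib]
        congr 1
        · rw [sum_comm]
          refine sum_congr rfl fun j _ => ?_
          simp
        · refine sum_congr rfl fun i _ => ?_
          simp
    _ ≤ ∑ _j : Fin n, (1 : ℝ) := by
        refine sum_le_sum fun j _ => ?_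
        rcases lt_trichotomy k j with h | h | h
        · simp [h, not_lt_of_gt h]
        · subst h; simp
        · simp [h, not_lt_of_gt h]
    _ = n := by simp

theorem net_var {n : ℕ} (x y : Fin n → ℝ) (hx : ∑ i, x i ^ 2 ≤ 4) (hy : ∑ i, y i ^ 2 ≤ 4)
    (e : ℝ) (he : e ^ 2 = 1) :
    (∑ i : Fin n, ∑ j : Fin n, if i < j then
      (e * (y i * x j) + e * (y j * x i)) ^ 2 else 0) ≤ 64 := by
  have h1 : ∀ i j : Fin n, (if i < j then
      (e * (y i * x j) + e * (y j * x i)) ^ 2 else 0) ≤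
      2 * (y i ^ 2 * x j ^ 2) + 2 * (x i ^ 2 * y j ^ 2) := by
    intro i j
    split_ifs
    · have : (e * (y i * x j) + e * (y j * x i)) ^ 2 = e ^ 2 * (y i * x j + y j * x i) ^ 2 := by
        ring
      rw [this, he]
      nlinarith [sq_nonneg (y i * x j - y j * x i)]
    · positivity
  calc _ ≤ ∑ i : Fin n, ∑ j : Fin n, (2 * (y i ^ 2 * x j ^ 2) + 2 * (x i ^ 2 * y j ^ 2)) :=
        sum_le_sum fun i _ => sum_le_sum fun j _ => h1 i j
    _ = 2 * ((∑ i, y i ^ 2) * ∑ j, x j ^ 2) + 2 * ((∑ i, x i ^ 2) * ∑ j, y j ^ 2) := by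
        simp only [sum_add_distrib, ← mul_sum, ← sum_mul]
    _ ≤ 64 := by
        have h2 : 0 ≤ ∑ i, x i ^ 2 := sum_nonneg fun i _ => sq_nonneg _
        have h3 : 0 ≤ ∑ i, y i ^ 2 := sum_nonneg fun i _ => sq_nonneg _
        nlinarith

open Classical in
theorem row_tail {n : ℕ} (hn : 0 < n) {δ : ℝ} (h0 : 0 ≤ δ) (h1 : δ ≤ 1 / 2) (k : Fin n) {t : ℝ}
    (ht : 0 ≤ t) :
    ∑ s : Fin n → Fin n → Bool, (if ∑ j, Nm δ s k j ≤ -t then Wt δ s else 0) ≤
      Real.exp (-(t ^ 2 / (2 * n))) := by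
  have hn' : (0 : ℝ) < n := by exact_mod_cast hn
  have h2 := tail h0 h1 (fun i j => (if i = k then (-1 : ℝ) else 0) + (if j = k then (-1 : ℝ) else 0))
    hn' (row_var k) ht
  refine le_trans (le_of_eq ?_) h2
  refine sum_congr rfl fun s _ => ?_
  have e : X δ (fun i j => (if i = k then (-1 : ℝ) else 0) + (if j = k then (-1 : ℝ) else 0)) s =
      - ∑ j, Nm δ s k j := by
    rw [← lin δ (fun i _ => if i = k then (-1 : ℝ) else 0) s, sum_comm, ← sum_neg_distrib]
    refine sum_congr rfl fun j _ => ?_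
    simp
  rw [e]
  have e2 : (∑ j, Nm δ s k j ≤ -t) ↔ (t ≤ - ∑ j, Nm δ s k j) := by
    constructor <;> intro h <;> linarith
  simp only [e2]

/-- the bilinear form of the centred matrix -/
noncomputable def bil {n : ℕ} (δ : ℝ) (s : Fin n → Fin n → Bool) (x y : Fin n → ℝ) : ℝ :=
  y ⬝ᵥ (Matrix.of (Nm δ s)).mulVec x

theorem bil_eq {n : ℕ} (δ : ℝ) (s : Fin n → Fin n → Bool) (x y : Fin n → ℝ) :
    bil δ s x y = ∑ i, ∑ j, (y i * x j) * Nm δ s i j := by
  unfold bil
  simp only [dotProduct, mulVec, Matrix.of_apply]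
  refine sum_congr rfl fun i _ => ?_
  rw [mul_sum]
  refine sum_congr rfl fun j _ => ?_
  ring

open Classical in
theorem net_tail {n : ℕ} {δ : ℝ} (h0 : 0 ≤ δ) (h1 : δ ≤ 1 / 2) (x y : Fin n → ℝ)
    (hx : ∑ i, x i ^ 2 ≤ 4) (hy : ∑ i, y i ^ 2 ≤ 4) (e : ℝ) (he : e ^ 2 = 1) {t : ℝ}
    (ht : 0 ≤ t) :
    ∑ s : Fin n → Fin n → Bool, (if t ≤ e * bil δ s x y then Wt δ s else 0) ≤
      Real.exp (-(t ^ 2 / 128)) := by
  have h2 := tail h0 h1 (fun i j => e * (y i * x j) + e * (y j * x i))
    (by norm_num : (0 : ℝ) < 64) (net_var x y hx hy e he) ht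
  have e0 : (2 : ℝ) * 64 = 128 := by norm_num
  rw [e0] at h2
  refine le_trans (le_of_eq ?_) h2
  refine sum_congr rfl fun s _ => ?_
  have e1 : X δ (fun i j => e * (y i * x j) + e * (y j * x i)) s = e * bil δ s x y := by
    rw [← lin δ (fun i j => e * (y i * x j)) s, bil_eq, mul_sum]
    refine sum_congr rfl fun i _ => ?_
    rw [mul_sum]
    refine sum_congr rfl fun j _ => ?_
    ring
  rw [e1]

/-- the good event -/
def Good {n : ℕ} (δ t u : ℝ) (s : Fin n → Fin n → Bool) : Prop :=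
  ‖Matrix.of (Nm δ s)‖ ≤ 4 * u ∧ ∀ k, -t ≤ ∑ j, Nm δ s k j

open Classical in
theorem bad_le {n : ℕ} (hn : 0 < n) {δ : ℝ} (h0 : 0 ≤ δ) (h1 : δ ≤ 1 / 2) {t u : ℝ}
    (ht : 0 ≤ t) (hu : 0 ≤ u) :
    ∑ s : Fin n → Fin n → Bool, (if Good δ t u s then 0 else Wt δ s) ≤
      2 * (10000 ^ n * 10000 ^ n) * Real.exp (-(u ^ 2 / 128)) +
        n * Real.exp (-(t ^ 2 / (2 * n))) := by
  obtain ⟨S, hS1, hS2, hS3⟩ := net_exists n
  have hpt : ∀ s : Fin n → Fin n → Bool, (if Good δ t u s then 0 else Wt δ s) ≤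
      (∑ x ∈ S, ∑ y ∈ S, ((if u ≤ 1 * bil δ s x y then Wt δ s else 0) +
        (if u ≤ (-1) * bil δ s x y then Wt δ s else 0))) +
      ∑ k, (if ∑ j, Nm δ s k j ≤ -t then Wt δ s else 0) := by
    intro s
    have hW := Wt_nonneg h0 h1 s
    have hA0 : ∀ x y : Fin n → ℝ, 0 ≤ ((if u ≤ 1 * bil δ s x y then Wt δ s else 0) +
        (if u ≤ (-1) * bil δ s x y then Wt δ s else 0)) := by
      intro x y
      split_ifs <;> linarith
    have hB0 : ∀ k, 0 ≤ (if ∑ j, Nm δ s k j ≤ -t then Wt δ s else 0) := by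
      intro k
      split_ifs <;> linarith
    have hA : 0 ≤ ∑ x ∈ S, ∑ y ∈ S, ((if u ≤ 1 * bil δ s x y then Wt δ s else 0) +
        (if u ≤ (-1) * bil δ s x y then Wt δ s else 0)) :=
      sum_nonneg fun x _ => sum_nonneg fun y _ => hA0 x y
    have hB : 0 ≤ ∑ k, (if ∑ j, Nm δ s k j ≤ -t then Wt δ s else 0) :=
      sum_nonneg fun k _ => hB0 k
    by_cases hg : Good δ t u s
    · rw [if_pos hg]; linarith
    · rw [if_neg hg]
      unfold Good at hg
      rw [not_and_or] at hg
      rcases hg with hg | hg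
      · rw [not_le] at hg
        obtain ⟨x, hx, y, hy, hxy⟩ := hS3 (Matrix.of (Nm δ s))
        have h3 : u ≤ |bil δ s x y| := by
          unfold bil
          by_contra hcon
          rw [not_le] at hcon
          linarith
        have h4 : Wt δ s ≤ ((if u ≤ 1 * bil δ s x y then Wt δ s else 0) +
            (if u ≤ (-1) * bil δ s x y then Wt δ s else 0)) := by
          rcases le_abs.1 h3 with h5 | h5
          · rw [if_pos (by linarith : u ≤ 1 * bil δ s x y)]
            split_ifs <;> linarith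
          · rw [if_pos (by linarith : u ≤ (-1) * bil δ s x y)]
            split_ifs <;> linarith
        have h5 := single_le_sum (f := fun y => ((if u ≤ 1 * bil δ s x y then Wt δ s else 0) +
            (if u ≤ (-1) * bil δ s x y then Wt δ s else 0))) (fun y _ => hA0 x y) hy
        have h6 := single_le_sum (f := fun x => ∑ y ∈ S, ((if u ≤ 1 * bil δ s x y then Wt δ s else 0) +
            (if u ≤ (-1) * bil δ s x y then Wt δ s else 0)))
            (fun x _ => sum_nonneg fun y _ => hA0 x y) hx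
        linarith
      · push Not at hg
        obtain ⟨k, hk⟩ := hg
        have h5 := single_le_sum (f := fun k => (if ∑ j, Nm δ s k j ≤ -t then Wt δ s else 0))
          (fun k _ => hB0 k) (mem_univ k)
        rw [if_pos hk.le] at h5
        linarith
  refine (sum_le_sum fun s _ => hpt s).trans ?_
  rw [sum_add_distrib]
  refine add_le_add ?_ ?_
  · rw [sum_comm]
    calc _ ≤ ∑ x ∈ S, ∑ y ∈ S, (Real.exp (-(u ^ 2 / 128)) + Real.exp (-(u ^ 2 / 128))) := by
          refine sum_le_sum fun x hx => ?_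
          rw [sum_comm]
          refine sum_le_sum fun y hy => ?_
          rw [sum_add_distrib]
          exact add_le_add (net_tail h0 h1 x y (hS2 x hx) (hS2 y hy) 1 (by norm_num) hu)
            (net_tail h0 h1 x y (hS2 x hx) (hS2 y hy) (-1) (by norm_num) hu)
      _ = (S.card : ℝ) * (S.card) * (2 * Real.exp (-(u ^ 2 / 128))) := by
          simp only [sum_const, nsmul_eq_mul]
          ring
      _ ≤ (10000 ^ n * 10000 ^ n) * (2 * Real.exp (-(u ^ 2 / 128))) := by
          have h3 : (S.card : ℝ) ≤ 10000 ^ n := by exact_mod_cast hS1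
          gcongr
      _ = _ := by ring
  · rw [sum_comm]
    calc _ ≤ ∑ _k : Fin n, Real.exp (-(t ^ 2 / (2 * n))) :=
          sum_le_sum fun k _ => row_tail hn h0 h1 k ht
      _ = _ := by simp

/-- on the good event every local minimum is constant -/
theorem good_sync {n : ℕ} (hn : 0 < n) {δ κ c t u : ℝ} (hδ : 0 < δ) (hκ0 : 0 ≤ κ)
    (hκ1 : κ ≤ 1 / 4) (hκ2 : 4 * κ ^ 2 ≤ c) (hκ3 : 2 * κ < c)
    (h4 : 4 * u + 2 * δ ≤ κ * δ * n) (h5 : t = 2 * δ * (n - 1) - 2 * c * δ * n)
    {s : Fin n → Fin n → Bool} (hg : Good δ t u s)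
    (θ : Fin n → ℝ) (hmin : IsLocalMin (En (Am s)) θ) :
    ∀ i j : Fin n, ∃ k : ℤ, θ i - θ j = 2 * Real.pi * (k : ℝ) := by
  have hsym : ∀ i j, Am s i j = Am s j i := by
    intro i j
    unfold Am
    rcases lt_trichotomy i j with h | h | h
    · simp [h, not_lt_of_gt h]
    · subst h; simp
    · simp [h, not_lt_of_gt h]
  have hdiag : ∀ i, Am s i i = 0 := by
    intro i; unfold Am; simp
  have hAN : ∀ i j, Am s i j = Nm δ s i j + (if i = j then 0 else 2 * δ) := by
    intro i j
    unfold Am Nm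
    rcases lt_trichotomy i j with h | h | h
    · simp [h, h.ne]
    · subst h; simp
    · simp [h, h.ne', not_lt_of_gt h]
  refine sync hn (Am s) hsym hdiag hδ hκ0 hκ1 hκ2 hκ3 ?_ ?_ θ hmin
  · intro w
    have e1 : ∀ i, ∑ j, (Am s i j - 2 * δ) * w j =
        ((Matrix.of (Nm δ s)).mulVec w) i - 2 * δ * w i := by
      intro i
      simp only [mulVec, dotProduct, Matrix.of_apply]
      have e2 : ∀ j, (Am s i j - 2 * δ) * w j = Nm δ s i j * w j -
          (if i = j then 2 * δ * w j else 0) := by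
        intro j
        rw [hAN]
        split_ifs <;> ring
      simp only [e2, sum_sub_distrib]
      simp
    have e3 : (∑ i, (∑ j, (Am s i j - 2 * δ) * w j) ^ 2) =
        en ((Matrix.of (Nm δ s)).mulVec w - (2 * δ) • w) ^ 2 := by
      rw [en_sq]
      refine sum_congr rfl fun i _ => ?_
      rw [e1]
      simp [smul_eq_mul]
    rw [e3, ← en_sq, ← mul_pow]
    refine pow_le_pow_left₀ (en_nonneg _) ?_ 2
    have h6 : en ((Matrix.of (Nm δ s)).mulVec w - (2 * δ) • w) ≤
        en ((Matrix.of (Nm δ s)).mulVec w) + en ((2 * δ) • w) := by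
      unfold en
      rw [WithLp.toLp_sub]
      exact norm_sub_le _ _
    have h7 : en ((2 * δ) • w) = 2 * δ * en w := by
      unfold en
      rw [WithLp.toLp_smul, norm_smul, Real.norm_of_nonneg (by positivity)]
    have h8 : en ((Matrix.of (Nm δ s)).mulVec w) ≤ ‖Matrix.of (Nm δ s)‖ * en w :=
      (Matrix.of (Nm δ s)).l2_opNorm_mulVec (WithLp.toLp 2 w)
    have h9 := en_nonneg w
    calc _ ≤ ‖Matrix.of (Nm δ s)‖ * en w + 2 * δ * en w := by rw [← h7]; linarith
      _ = (‖Matrix.of (Nm δ s)‖ + 2 * δ) * en w := by ring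
      _ ≤ (κ * δ * n) * en w := by
          apply mul_le_mul_of_nonneg_right _ h9
          linarith [hg.1]
  · intro i
    have h6 := hg.2 i
    have e1 : ∑ j, Am s i j = ∑ j, Nm δ s i j + 2 * δ * (n - 1) := by
      simp only [hAN, sum_add_distrib]
      congr 1
      have e2 : ∀ j : Fin n, (if i = j then (0 : ℝ) else 2 * δ) =
          2 * δ - (if i = j then 2 * δ else 0) := by
        intro j; split_ifs <;> ring
      simp only [e2, sum_sub_distrib]
      simp
      ring
    rw [e1]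
    linarith

end Pool.Agent.W852.GS
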