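import Pool.Agent.W852.GS.Hoef

set_option autoImplicit false

namespace Pool.Agent.W852.GS

open Finset

/-- value of a sign -/
noncomputable def sg (b : Bool) : ℝ := if b = true then 1 else -1

/-- weight of one entry -/
noncomputable def wt {n : ℕ} (δ : ℝ) (i j : Fin n) (b : Bool) : ℝ :=
  if i < j then (if b = true then (1 / 2 : ℝ) + δ else (1 / 2 : ℝ) - δ) else (1 / 2 : ℝ)

/-- weight of a configuration -/
noncomputable def Wt {n : ℕ} (δ : ℝ) (s : Fin n → Fin n → Bool) : ℝ :=
  ∏ i : Fin n, ∏ j : Fin n, wt δ i j (s i j)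

/-- the symmetric sign matrix -/
noncomputable def Am {n : ℕ} (s : Fin n → Fin n → Bool) (i j : Fin n) : ℝ :=
  if i < j then sg (s i j) else if j < i then sg (s j i) else 0

/-- the centred matrix -/
noncomputable def Nm {n : ℕ} (δ : ℝ) (s : Fin n → Fin n → Bool) (i j : Fin n) : ℝ :=
  if i < j then sg (s i j) - 2 * δ else if j < i then sg (s j i) - 2 * δ else 0

theorem sum_prod {n : ℕ} (f : Fin n → Fin n → Bool → ℝ) :
    ∑ s : Fin n → Fin n → Bool, ∏ i, ∏ j, f i j (s i j) = ∏ i, ∏ j, ∑ b, f i j b := by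
  have h1 : ∀ i : Fin n, ∏ j, ∑ b, f i j b = ∑ r : Fin n → Bool, ∏ j, f i j (r j) := by
    intro i
    have := Finset.prod_univ_sum (fun _ : Fin n => (univ : Finset Bool)) (fun j b => f i j b)
    rw [Fintype.piFinset_univ] at this
    exact this
  simp only [h1]
  have := Finset.prod_univ_sum (fun _ : Fin n => (univ : Finset (Fin n → Bool)))
    (fun i r => ∏ j, f i j (r j))
  rw [Fintype.piFinset_univ] at this
  exact this.symm

theorem wt_nonneg {n : ℕ} {δ : ℝ} (h0 : 0 ≤ δ) (h1 : δ ≤ 1 / 2) (i j : Fin n) (b : Bool) :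
    0 ≤ wt δ i j b := by
  unfold wt
  split_ifs <;> linarith

theorem Wt_nonneg {n : ℕ} {δ : ℝ} (h0 : 0 ≤ δ) (h1 : δ ≤ 1 / 2) (s : Fin n → Fin n → Bool) :
    0 ≤ Wt δ s :=
  prod_nonneg fun i _ => prod_nonneg fun j _ => wt_nonneg h0 h1 i j _

theorem sum_Wt {n : ℕ} (δ : ℝ) : ∑ s : Fin n → Fin n → Bool, Wt δ s = 1 := by
  unfold Wt
  rw [sum_prod]
  refine prod_eq_one fun i _ => prod_eq_one fun j _ => ?_
  rw [Fintype.sum_bool]
  unfold wt
  split_ifs <;> simp_all <;> ring

/-- the linear statistic -/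
noncomputable def X {n : ℕ} (δ : ℝ) (c : Fin n → Fin n → ℝ) (s : Fin n → Fin n → Bool) : ℝ :=
  ∑ i, ∑ j, if i < j then c i j * (sg (s i j) - 2 * δ) else 0

theorem mgf {n : ℕ} {δ : ℝ} (h0 : 0 ≤ δ) (h1 : δ ≤ 1 / 2) (c : Fin n → Fin n → ℝ) :
    ∑ s : Fin n → Fin n → Bool, Wt δ s * Real.exp (X δ c s) ≤
      Real.exp ((∑ i, ∑ j, if i < j then c i j ^ 2 else 0) / 2) := by
  have e1 : ∀ s : Fin n → Fin n → Bool, Wt δ s * Real.exp (X δ c s) =
      ∏ i, ∏ j, (wt δ i j (s i j) *
        Real.exp (if i < j then c i j * (sg (s i j) - 2 * δ) else 0)) := by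
    intro s
    unfold Wt X
    rw [Real.exp_sum, ← prod_mul_distrib]
    refine prod_congr rfl fun i _ => ?_
    rw [Real.exp_sum, ← prod_mul_distrib]
  simp only [e1]
  rw [sum_prod (fun i j b => wt δ i j b *
        Real.exp (if i < j then c i j * (sg b - 2 * δ) else 0)), sum_div, Real.exp_sum]
  refine prod_le_prod (fun i _ => ?_) fun i _ => ?_
  · refine prod_nonneg fun j _ => sum_nonneg fun b _ => ?_
    exact mul_nonneg (wt_nonneg h0 h1 _ _ _) (Real.exp_pos _).le
  · rw [sum_div, Real.exp_sum]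
    refine prod_le_prod (fun j _ => ?_) fun j _ => ?_
    · exact sum_nonneg fun b _ => mul_nonneg (wt_nonneg h0 h1 _ _ _) (Real.exp_pos _).le
    · rw [Fintype.sum_bool]
      unfold wt sg
      by_cases hij : i < j
      · simp only [hij, if_true]
        have h := hoef (1 / 2 + δ) (1 / 2 - δ) (c i j) (by linarith) (by linarith) (by ring)
        have e2 : c i j * (1 - (1 / 2 + δ - (1 / 2 - δ))) = c i j * (1 - 2 * δ) := by ring
        have e3 : c i j * (-1 - (1 / 2 + δ - (1 / 2 - δ))) = c i j * (-1 - 2 * δ) := by ring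
        rw [e2, e3] at h
        simpa using h
      · simp only [hij, if_false]
        norm_num

open Classical in
theorem tail {n : ℕ} {δ : ℝ} (h0 : 0 ≤ δ) (h1 : δ ≤ 1 / 2) (c : Fin n → Fin n → ℝ) {V t : ℝ}
    (hV : 0 < V) (hc : (∑ i, ∑ j, if i < j then c i j ^ 2 else 0) ≤ V) (ht : 0 ≤ t) :
    ∑ s : Fin n → Fin n → Bool, (if t ≤ X δ c s then Wt δ s else 0) ≤
      Real.exp (-(t ^ 2 / (2 * V))) := by
  set l : ℝ := t / V with hl
  have hl0 : 0 ≤ l := by positivity
  have h2 := mgf h0 h1 (fun i j => l * c i j)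
  have e1 : ∀ s : Fin n → Fin n → Bool, X δ (fun i j => l * c i j) s = l * X δ c s := by
    intro s
    unfold X
    rw [mul_sum]
    refine sum_congr rfl fun i _ => ?_
    rw [mul_sum]
    refine sum_congr rfl fun j _ => ?_
    split_ifs <;> ring
  have e2 : (∑ i : Fin n, ∑ j : Fin n, if i < j then (l * c i j) ^ 2 else 0) =
      l ^ 2 * ∑ i, ∑ j, if i < j then c i j ^ 2 else 0 := by
    rw [mul_sum]
    refine sum_congr rfl fun i _ => ?_
    rw [mul_sum]
    refine sum_congr rfl fun j _ => ?_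
    split_ifs <;> ring
  rw [e2] at h2
  have h3 : ∑ s : Fin n → Fin n → Bool, (if t ≤ X δ c s then Wt δ s else 0) ≤
      Real.exp (-(l * t)) * ∑ s : Fin n → Fin n → Bool, Wt δ s *
        Real.exp (X δ (fun i j => l * c i j) s) := by
    rw [mul_sum]
    refine sum_le_sum fun s _ => ?_
    have hW := Wt_nonneg h0 h1 s
    split_ifs with h
    · rw [e1]
      have : 1 ≤ Real.exp (-(l * t)) * Real.exp (l * X δ c s) := by
        rw [← Real.exp_add]
        apply Real.one_le_exp
        have := mul_le_mul_of_nonneg_left h hl0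
        linarith
      calc Wt δ s = Wt δ s * 1 := (mul_one _).symm
        _ ≤ Wt δ s * (Real.exp (-(l * t)) * Real.exp (l * X δ c s)) :=
            mul_le_mul_of_nonneg_left this hW
        _ = _ := by ring
    · have h4 := Real.exp_pos (-(l * t))
      have h5 := Real.exp_pos (X δ (fun i j => l * c i j) s)
      positivity
  refine h3.trans ?_
  calc _ ≤ Real.exp (-(l * t)) * Real.exp (l ^ 2 * V / 2) := by
        apply mul_le_mul_of_nonneg_left _ (Real.exp_pos _).le
        refine h2.trans (Real.exp_le_exp.2 ?_)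
        have : l ^ 2 * (∑ i : Fin n, ∑ j : Fin n, if i < j then c i j ^ 2 else 0) ≤ l ^ 2 * V :=
          mul_le_mul_of_nonneg_left hc (sq_nonneg _)
        linarith
    _ = Real.exp (-(t ^ 2 / (2 * V))) := by
        rw [← Real.exp_add]
        congr 1
        rw [hl]
        field_simp
        ring

theorem lin {n : ℕ} (δ : ℝ) (d : Fin n → Fin n → ℝ) (s : Fin n → Fin n → Bool) :
    ∑ i, ∑ j, d i j * Nm δ s i j = X δ (fun i j => d i j + d j i) s := by
  have e1 : ∀ i j, d i j * Nm δ s i j = (if i < j then d i j * (sg (s i j) - 2 * δ) else 0) +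
      (if j < i then d i j * (sg (s j i) - 2 * δ) else 0) := by
    intro i j
    unfold Nm
    rcases lt_trichotomy i j with h | h | h
    · simp [h, not_lt_of_gt h]
    · subst h; simp
    · simp [h, not_lt_of_gt h]
  simp only [e1, sum_add_distrib]
  rw [sum_comm (f := fun i j => if j < i then d i j * (sg (s j i) - 2 * δ) else 0),
    ← sum_add_distrib]
  unfold X
  refine sum_congr rfl fun i _ => ?_
  rw [← sum_add_distrib]
  refine sum_congr rfl fun j _ => ?_
  split_ifs <;> ring

end Pool.Agent.W852.GS
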